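import Pool.Agent.V1129.SG2

set_option autoImplicit false

/-!
MP_c8715f_al, Q1: the dual of a non-separable metrizable abelian group need not be an s-group.
-/

namespace Pool.Agent.V1129.SG

open Topology Filter

/-- An abelian topological group `A` is an s-group if there is a set `S` of sequences in `A` such
that the topology of `A` is the finest Hausdorff group topology in which all the sequences of `S`
converge to zero. -/
def IsSGroup (A : Type) [AddCommGroup A] [τ : TopologicalSpace A] : Prop :=
  IsTopologicalAddGroup A ∧ T2Space A ∧ ∃ S : Set (ℕ → A),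
    (∀ u ∈ S, Tendsto u atTop (𝓝 0)) ∧
    ∀ σ : TopologicalSpace A, @IsTopologicalAddGroup A σ _ → @T2Space A σ →
      (∀ u ∈ S, Tendsto u atTop (@nhds A σ 0)) → τ ≤ σ

end Pool.Agent.V1129.SG

namespace Pool.Agent.Results.MP_c8715f_al.NotSGroup

open Topology Filter Pool.Agent.V1129.SG

/-- There is a non-separable metrizable abelian topological group `G` whose dual group (the group
of continuous homomorphisms into `ℝ/ℤ` with the compact-open topology) is not an s-group. -/
theorem result : ∃ (G : Type) (_ : AddCommGroup G) (_ : TopologicalSpace G),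
    IsTopologicalAddGroup G ∧ TopologicalSpace.MetrizableSpace G ∧
      ¬ TopologicalSpace.SeparableSpace G ∧
      ¬ IsSGroup (ContinuousAddMonoidHom G UnitAddCircle) := by
  refine ⟨GG, inferInstance, inferInstance, inferInstance, inferInstance, not_separable, ?_⟩
  rintro ⟨hG, hT2, S, hS, hfin⟩
  obtain ⟨Q, hQ, F, hF⟩ : ∃ (Q : Type) (_ : AddCommGroup Q) (F : DD →+ Q), F.ker = NN :=
    ⟨DD ⧸ NN, inferInstance, QuotientAddGroup.mk' NN, QuotientAddGroup.ker_mk' NN⟩
  let tQ : TopologicalSpace Q := ⊥
  have hd : DiscreteTopology Q := ⟨rfl⟩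
  have hQg : IsTopologicalAddGroup Q := inferInstance
  have h1 : @IsTopologicalAddGroup DD (TopologicalSpace.induced F tQ) _ :=
    topologicalAddGroup_induced F
  let τ : TopologicalSpace DD := inferInstance
  let σ : TopologicalSpace DD := τ ⊓ TopologicalSpace.induced F tQ
  have h2 : @IsTopologicalAddGroup DD σ _ := topologicalAddGroup_inf hG h1
  have h3 : σ ≤ τ := inf_le_left
  have h4 : @T2Space DD σ :=
    @T2Space.of_injective_continuous DD DD σ τ hT2 id Function.injective_id
      (continuous_id_iff_le.2 h3)
  have h5 := hfin σ h2 h4 (by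
    intro u hu
    have h6 : @nhds DD σ 0 = @nhds DD τ 0 ⊓ @nhds DD (TopologicalSpace.induced F tQ) 0 :=
      @nhds_inf DD τ (TopologicalSpace.induced F tQ) 0
    rw [h6, tendsto_inf]
    refine ⟨hS u hu, ?_⟩
    rw [nhds_induced, tendsto_comap_iff, map_zero, nhds_discrete, tendsto_pure]
    filter_upwards [eventually_mem (hS u hu)] with j hj
    show F (u j) = 0
    have : u j ∈ F.ker := by rw [hF]; exact hj
    exact this)
  have h6 : τ ≤ TopologicalSpace.induced F tQ := h5.trans inf_le_right
  apply not_nhds
  have h7 : IsOpen[τ] (NN : Set DD) := by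
    apply h6
    refine ⟨{0}, trivial, ?_⟩
    rw [← hF]
    rfl
  exact @IsOpen.mem_nhds DD τ 0 (NN : Set DD) h7 NN.zero_mem

end Pool.Agent.Results.MP_c8715f_al.NotSGroup
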